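import Pool.Agent.Lib.MP_b347ba_lc_h69.Nodes

/-! # The curves of a sweep -/

namespace Pool.MP_b347ba_lc

open Set

/-- Piecewise linear interpolation of a sequence. -/
noncomputable def interp (X : ℕ → ℝ) : ℕ → ℝ → ℝ
  | 0, _ => X 0
  | K + 1, h => interp X K h + (X (K + 1) - X K) * max 0 (min 1 (h - K))

theorem continuous_interp (X : ℕ → ℝ) (K : ℕ) : Continuous (interp X K) := by
  induction K with
  | zero => exact continuous_const
  | succ K ih =>
    simp only [interp]
    fun_prop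

theorem interp_ge (X : ℕ → ℝ) (K : ℕ) (h : ℝ) (hh : (K : ℝ) ≤ h) : interp X K h = X K := by
  induction K with
  | zero => rfl
  | succ K ih =>
    push_cast at hh
    simp only [interp]
    rw [ih (by linarith), min_eq_left (by linarith), max_eq_right (by norm_num)]
    ring

theorem interp_eq (X : ℕ → ℝ) (K n : ℕ) (hn : n < K) (h : ℝ) (h1 : (n : ℝ) ≤ h)
    (h2 : h ≤ n + 1) : interp X K h = X n + (h - n) * (X (n + 1) - X n) := by
  induction K with
  | zero => omega
  | succ K ih =>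
    simp only [interp]
    rcases Nat.lt_succ_iff_lt_or_eq.1 hn with h3 | h3
    · have h4 : (n : ℝ) + 1 ≤ K := by exact_mod_cast h3
      rw [ih h3, max_eq_left (by
        refine (min_le_right _ _).trans ?_
        linarith)]
      ring
    · subst h3
      rw [interp_ge X n h h1, min_eq_right (by linarith), max_eq_right (by linarith)]
      ring

namespace Sweep

variable {V : Type} {up dn : V → List V} (S : Sweep up dn)

/-- Abscissa of a strand at height `h`. -/
noncomputable def ab (e : Strand V) (h : ℝ) : ℝ := interp (fun n => S.xn n e) (2 * S.N) h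

theorem continuous_ab (e : Strand V) : Continuous (S.ab e) := continuous_interp _ _

theorem ab_eq {n : ℕ} (hn : n < 2 * S.N) (e : Strand V) {h : ℝ} (h1 : (n : ℝ) ≤ h)
    (h2 : h ≤ n + 1) : S.ab e h = S.xn n e + (h - n) * (S.xn (n + 1) e - S.xn n e) :=
  interp_eq _ _ _ hn h h1 h2

theorem ab_node {n : ℕ} (hn : n < 2 * S.N) (e : Strand V) : S.ab e n = S.xn n e := by
  rw [S.ab_eq hn e le_rfl (by linarith)]
  ring

/-- Point of a strand at height `h`. -/
noncomputable def pt (e : Strand V) (h : ℝ) : ℂ := ⟨S.ab e h, h⟩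

theorem continuous_pt (e : Strand V) : Continuous (S.pt e) := by
  have : S.pt e = fun h => (S.ab e h : ℂ) + (h : ℂ) * Complex.I := by
    funext h
    apply Complex.ext <;> simp [pt]
  rw [this]
  have := S.continuous_ab e
  fun_prop

/-- The strand is present at height `h`. -/
def Alive (e : Strand V) (h : ℝ) : Prop :=
  e.2 ∈ up e.1 ∧ 2 * (S.τ e.1 : ℝ) + 1 ≤ h ∧ h ≤ 2 * (S.τ e.2 : ℝ) + 1

theorem at_of_alive {t : ℕ} {e : Strand V} (he : S.Alive e (2 * t + 1)) : t < S.N ∧ S.At t e := by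
  obtain ⟨h1, h2, h3⟩ := he
  have h2' : S.τ e.1 ≤ t := by
    have : (S.τ e.1 : ℝ) ≤ t := by linarith
    exact_mod_cast this
  have h3' : t ≤ S.τ e.2 := by
    have : (t : ℝ) ≤ S.τ e.2 := by linarith
    exact_mod_cast this
  have h4 := S.τ_lt e.2
  have ht : t < S.N := by omega
  refine ⟨ht, ?_⟩
  rcases h2'.lt_or_eq with h | h
  · have h5 : e ∈ S.st t := (S.mem_st ht.le e).2 ⟨h1, h, h3'⟩
    rw [S.mem_before ht] at h5
    rcases h5 with h5 | h5 | h5
    · exact Or.inl h5
    · exact Or.inr (Or.inl (Or.inl h5))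
    · exact Or.inr (Or.inr h5)
  · have h6 := S.mono h1
    have h5 : e ∈ S.st (t + 1) := (S.mem_st ht e).2 ⟨h1, by omega, by omega⟩
    rw [S.mem_after ht] at h5
    rcases h5 with h5 | h5 | h5
    · exact Or.inl h5
    · exact Or.inr (Or.inl (Or.inr h5))
    · exact Or.inr (Or.inr h5)

/-- Order on the segment below an odd node. -/
theorem ab_lt_before {t : ℕ} (ht : t < S.N) {e f : Strand V} (he : e ∈ S.st t) (hf : f ∈ S.st t)
    (h : S.xn (2 * t) e < S.xn (2 * t) f) {r : ℝ} (h1 : 2 * (t : ℝ) ≤ r) (h2 : r < 2 * t + 1) :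
    S.ab e r < S.ab f r := by
  have h3 := S.le_before ht he hf h
  have hn : 2 * t < 2 * S.N := by omega
  have c : ((2 * t : ℕ) : ℝ) = 2 * t := by push_cast; ring
  rw [S.ab_eq hn e (by rw [c]; exact h1) (by rw [c]; exact h2.le),
    S.ab_eq hn f (by rw [c]; exact h1) (by rw [c]; exact h2.le), c]
  nlinarith

/-- Order on the segment above an odd node. -/
theorem ab_lt_after {t : ℕ} (ht : t < S.N) {e f : Strand V} (he : e ∈ S.st (t + 1))
    (hf : f ∈ S.st (t + 1)) (h : S.xn (2 * (t + 1)) e < S.xn (2 * (t + 1)) f) {r : ℝ}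
    (h1 : 2 * (t : ℝ) + 1 < r) (h2 : r ≤ 2 * t + 2) : S.ab e r < S.ab f r := by
  have h3 := S.le_after ht he hf h
  have hn : 2 * t + 1 < 2 * S.N := by omega
  have c : ((2 * t + 1 : ℕ) : ℝ) = 2 * t + 1 := by push_cast; ring
  rw [S.ab_eq hn e (by rw [c]; exact h1.le) (by rw [c]; linarith),
    S.ab_eq hn f (by rw [c]; exact h1.le) (by rw [c]; linarith), c]
  have e2 : 2 * t + 1 + 1 = 2 * (t + 1) := by ring
  rw [e2]
  nlinarith

/-- Two strands meet only at an event in which both take part. -/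
theorem meet {e f : Strand V} (hef : e ≠ f) {r : ℝ} (he : S.Alive e r) (hf : S.Alive f r)
    (h : S.ab e r = S.ab f r) : ∃ t < S.N, r = 2 * t + 1 ∧ S.Part t e ∧ S.Part t f := by
  have hr0 : 0 ≤ r := by
    have := he.2.1
    have h2 : (0 : ℝ) ≤ S.τ e.1 := by positivity
    linarith
  obtain ⟨t, ht1, ht2⟩ : ∃ t : ℕ, 2 * (t : ℝ) ≤ r ∧ r < 2 * t + 2 := by
    refine ⟨⌊r / 2⌋₊, ?_, ?_⟩
    · have := Nat.floor_le (show 0 ≤ r / 2 by linarith)
      linarith
    · have := Nat.lt_floor_add_one (r / 2)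
      linarith
  have b : ∀ e : Strand V, S.Alive e r → t ≤ S.τ e.2 := by
    intro e he
    have : (t : ℝ) < S.τ e.2 + 1 := by linarith [he.2.2]
    exact Nat.lt_succ_iff.1 (by exact_mod_cast this)
  have htN : t < S.N := (b e he).trans_lt (S.τ_lt _)
  rcases lt_trichotomy r (2 * t + 1) with h1 | h1 | h1
  · exfalso
    have b2 : ∀ e : Strand V, S.Alive e r → e ∈ S.st t := by
      intro e he
      rw [S.mem_st htN.le]
      refine ⟨he.1, ?_, b e he⟩
      have : (S.τ e.1 : ℝ) < t := by linarith [he.2.1]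
      exact_mod_cast this
    have he' := b2 e he
    have hf' := b2 f hf
    rcases lt_or_gt_of_ne (S.xn_even_ne he' hef) with h2 | h2
    · exact (S.ab_lt_before htN he' hf' h2 ht1 h1).ne h
    · exact (S.ab_lt_before htN hf' he' h2 ht1 h1).ne h.symm
  · subst h1
    refine ⟨t, htN, rfl, ?_⟩
    have he' := (S.at_of_alive he).2
    have hf' := (S.at_of_alive hf).2
    have c : ((2 * t + 1 : ℕ) : ℝ) = 2 * t + 1 := by push_cast; ring
    rw [← c, S.ab_node (by omega), S.ab_node (by omega)] at h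
    exact S.eq_odd htN he' hf' hef h
  · exfalso
    have b2 : ∀ e : Strand V, S.Alive e r → e ∈ S.st (t + 1) := by
      intro e he
      rw [S.mem_st htN]
      refine ⟨he.1, ?_, ?_⟩
      · have : (S.τ e.1 : ℝ) < t + 1 := by linarith [he.2.1]
        exact_mod_cast this
      · have : (t : ℝ) < S.τ e.2 := by linarith [he.2.2]
        exact_mod_cast this
    have he' := b2 e he
    have hf' := b2 f hf
    rcases lt_or_gt_of_ne (S.xn_even_ne he' hef) with h2 | h2
    · exact (S.ab_lt_after htN he' hf' h2 h1 ht2.le).ne h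
    · exact (S.ab_lt_after htN hf' he' h2 h1 ht2.le).ne h.symm

/-- The point at which an event takes place. -/
noncomputable def cen (t : ℕ) : ℂ := ⟨((S.A t).length : ℝ) - 1 / 2, 2 * t + 1⟩

theorem pt_part {t : ℕ} (ht : t < S.N) {e : Strand V} (he : S.Part t e) :
    S.pt e (2 * t + 1) = S.cen t := by
  have c : ((2 * t + 1 : ℕ) : ℝ) = 2 * t + 1 := by push_cast; ring
  rw [pt, cen, ← c, S.ab_node (by omega), S.xn_part ht he]

theorem dir_up {t : ℕ} (ht : t < S.N) {e : Strand V} (he : S.Part t e) {g : ℝ → ℂ} {c : ℝ}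
    (hc : 0 < c) (hg : ∀ s, g s = S.pt e (2 * t + 1 + c * s)) :
    HasDir (S.cen t) g (true, S.xn (2 * (t + 1)) e - (((S.A t).length : ℝ) - 1 / 2)) := by
  refine ⟨1 / c, by positivity, fun s hs => ⟨c * s, mul_pos hc hs.1, ?_⟩⟩
  have hcs : c * s < 1 := by
    have := hs.2
    rw [lt_div_iff₀ hc] at this
    linarith
  have hcs0 : 0 < c * s := mul_pos hc hs.1
  have e2 : 2 * t + 1 + 1 = 2 * (t + 1) := by ring
  have c2 : ((2 * t + 1 : ℕ) : ℝ) = 2 * t + 1 := by push_cast; ring
  rw [hg, pt, S.ab_eq (n := 2 * t + 1) (by omega) e (by rw [c2]; linarith) (by rw [c2]; linarith),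
    c2, e2, S.xn_part ht he]
  apply Complex.ext
  · simp [cen, dVec]
  · simp [cen, dVec]

theorem dir_down {t : ℕ} (ht : t < S.N) {e : Strand V} (he : S.Part t e) {g : ℝ → ℂ} {c : ℝ}
    (hc : 0 < c) (hg : ∀ s, g s = S.pt e (2 * t + 1 - c * s)) :
    HasDir (S.cen t) g (false, S.xn (2 * t) e - (((S.A t).length : ℝ) - 1 / 2)) := by
  refine ⟨1 / c, by positivity, fun s hs => ⟨c * s, mul_pos hc hs.1, ?_⟩⟩
  have hcs : c * s < 1 := by
    have := hs.2
    rw [lt_div_iff₀ hc] at this
    linarith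
  have hcs0 : 0 < c * s := mul_pos hc hs.1
  have c2 : ((2 * t : ℕ) : ℝ) = 2 * t := by push_cast; ring
  rw [hg, pt, S.ab_eq (n := 2 * t) (by omega) e (by rw [c2]; linarith) (by rw [c2]; linarith),
    c2, S.xn_part ht he]
  apply Complex.ext
  · simp [cen, dVec]
    ring
  · simp [cen, dVec]
    ring

end Sweep

end Pool.MP_b347ba_lc
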