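import Pool.Agent.Lib.MP_b347ba_lc.LevelData

/-! # Curves leaving a point along straight segments -/

namespace Pool.MP_b347ba_lc

open Set

theorem OP_refl : OP (Homeomorph.refl ℂ) :=
  ⟨fun _ => Homeomorph.refl ℂ, continuous_snd.continuousOn, fun _ => rfl, fun _ => rfl⟩

/-- Angle of the direction `x + i` (`true`) or `x - i` (`false`). -/
noncomputable def dAng (d : Bool × ℝ) : ℝ :=
  if d.1 then Real.pi / 2 - Real.arctan d.2 else -(Real.pi / 2) + Real.arctan d.2

/-- The direction vector. -/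
noncomputable def dVec (d : Bool × ℝ) : ℂ := d.2 + (if d.1 then Complex.I else -Complex.I)

theorem dAng_lt (d : Bool × ℝ) : dAng d < Real.pi := by
  have h1 := Real.arctan_lt_pi_div_two d.2
  have h2 := Real.neg_pi_div_two_lt_arctan d.2
  have h3 := Real.pi_pos
  unfold dAng
  split <;> linarith

theorem lt_dAng (d : Bool × ℝ) : -Real.pi < dAng d := by
  have h1 := Real.arctan_lt_pi_div_two d.2
  have h2 := Real.neg_pi_div_two_lt_arctan d.2
  have h3 := Real.pi_pos
  unfold dAng
  split <;> linarith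

theorem dVec_eq (d : Bool × ℝ) :
    dVec d = (Real.sqrt (1 + d.2 ^ 2) : ℝ) * Complex.exp (dAng d * Complex.I) := by
  have hpos : (0 : ℝ) < 1 + d.2 ^ 2 := by positivity
  have hs : Real.sqrt (1 + d.2 ^ 2) ≠ 0 := (Real.sqrt_pos.2 hpos).ne'
  have e1 : Real.sqrt (1 + d.2 ^ 2) * Real.cos (Real.arctan d.2) = 1 := by
    rw [Real.cos_arctan]; field_simp
  have e2 : Real.sqrt (1 + d.2 ^ 2) * Real.sin (Real.arctan d.2) = d.2 := by
    rw [Real.sin_arctan]; field_simp
  rw [Complex.exp_mul_I, ← Complex.ofReal_cos, ← Complex.ofReal_sin]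
  unfold dVec dAng
  by_cases h : d.1 = true
  · rw [if_pos h, if_pos h, Real.cos_pi_div_two_sub, Real.sin_pi_div_two_sub]
    have : ((Real.sqrt (1 + d.2 ^ 2) : ℝ) : ℂ) * (((Real.sin (Real.arctan d.2) : ℝ) : ℂ) +
        ((Real.cos (Real.arctan d.2) : ℝ) : ℂ) * Complex.I) =
        ((Real.sqrt (1 + d.2 ^ 2) * Real.sin (Real.arctan d.2) : ℝ) : ℂ) +
          ((Real.sqrt (1 + d.2 ^ 2) * Real.cos (Real.arctan d.2) : ℝ) : ℂ) * Complex.I := by
      push_cast; ring
    rw [this, e1, e2]
    simp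
  · rw [if_neg h, if_neg h]
    have c1 : Real.cos (-(Real.pi / 2) + Real.arctan d.2) = Real.sin (Real.arctan d.2) := by
      rw [show -(Real.pi / 2) + Real.arctan d.2 = -(Real.pi / 2 - Real.arctan d.2) by ring,
        Real.cos_neg, Real.cos_pi_div_two_sub]
    have c2 : Real.sin (-(Real.pi / 2) + Real.arctan d.2) = -Real.cos (Real.arctan d.2) := by
      rw [show -(Real.pi / 2) + Real.arctan d.2 = -(Real.pi / 2 - Real.arctan d.2) by ring,
        Real.sin_neg, Real.sin_pi_div_two_sub]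
    rw [c1, c2]
    have : ((Real.sqrt (1 + d.2 ^ 2) : ℝ) : ℂ) * (((Real.sin (Real.arctan d.2) : ℝ) : ℂ) +
        ((-Real.cos (Real.arctan d.2) : ℝ) : ℂ) * Complex.I) =
        ((Real.sqrt (1 + d.2 ^ 2) * Real.sin (Real.arctan d.2) : ℝ) : ℂ) -
          ((Real.sqrt (1 + d.2 ^ 2) * Real.cos (Real.arctan d.2) : ℝ) : ℂ) * Complex.I := by
      push_cast; ring
    rw [this, e1, e2]
    simp [sub_eq_add_neg]

/-- Near `p` the curve `g` runs straight in the direction `d`. -/
def HasDir (p : ℂ) (g : ℝ → ℂ) (d : Bool × ℝ) : Prop :=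
  ∃ δ > 0, ∀ t ∈ Ioo 0 δ, ∃ s : ℝ, 0 < s ∧ g t = p + s * dVec d

theorem exists_common_delta {p : ℂ} {l : List (ℝ → ℂ)} {ds : List (Bool × ℝ)}
    (h : List.Forall₂ (HasDir p) l ds) :
    ∃ δ : ℝ, 0 < δ ∧ ∀ (i : ℕ) (g : ℝ → ℂ) (d : Bool × ℝ), l[i]? = some g → ds[i]? = some d →
      ∀ t ∈ Ioo 0 δ, ∃ s : ℝ, 0 < s ∧ g t = p + s * dVec d := by
  induction h with
  | nil => exact ⟨1, one_pos, fun i g d h => by simp at h⟩
  | @cons g d l ds h1 _ ih =>
    obtain ⟨δ1, hδ1, h1⟩ := h1
    obtain ⟨δ2, hδ2, h2⟩ := ih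
    refine ⟨min δ1 δ2, lt_min hδ1 hδ2, fun i g' d' hg hd t ht => ?_⟩
    cases i with
    | zero =>
      simp only [List.getElem?_cons_zero, Option.some.injEq] at hg hd
      subst hg; subst hd
      exact h1 t ⟨ht.1, ht.2.trans_le (min_le_left _ _)⟩
    | succ i =>
      simp only [List.getElem?_cons_succ] at hg hd
      exact h2 i g' d' hg hd t ⟨ht.1, ht.2.trans_le (min_le_right _ _)⟩

theorem leaveCW_of_dirs {p : ℂ} {l : List (ℝ → ℂ)} {ds : List (Bool × ℝ)}
    (h : List.Forall₂ (HasDir p) l ds) (hs : ds.Pairwise fun d d' => dAng d' < dAng d) :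
    LeaveCW p l := by
  obtain ⟨δ, hδ, hd⟩ := exists_common_delta h
  have hlen := h.length_eq
  refine ⟨Homeomorph.refl ℂ, fun i => dAng (ds.getD i (true, 0)), δ, OP_refl, hδ, ?_, ?_⟩
  · intro i j hij hj
    have hj' : j < ds.length := hlen ▸ hj
    have hi' : i < ds.length := hij.trans hj'
    have e1 : ds.getD i (true, 0) = ds[i] := by simp [hi']
    have e2 : ds.getD j (true, 0) = ds[j] := by simp [hj']
    simp only [e1, e2]
    refine ⟨List.pairwise_iff_getElem.1 hs i j hi' hj' hij, ?_⟩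
    have h1 := dAng_lt ds[i]
    have h2 := lt_dAng ds[j]
    linarith
  · intro i g hg t ht
    have hi : i < l.length := by
      rw [List.getElem?_eq_some_iff] at hg
      exact hg.1
    have hi' : i < ds.length := hlen ▸ hi
    obtain ⟨s, hs0, hs1⟩ := hd i g ds[i] hg (List.getElem?_eq_getElem hi') t ht
    have e1 : ds.getD i (true, 0) = ds[i] := by simp [hi']
    refine ⟨s * Real.sqrt (1 + ds[i].2 ^ 2), ?_, ?_⟩
    · have : (0 : ℝ) < 1 + ds[i].2 ^ 2 := by positivity
      exact mul_pos hs0 (Real.sqrt_pos.2 this)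
    · simp only [Homeomorph.refl_apply, id, e1]
      rw [hs1, dVec_eq]
      push_cast
      ring

theorem LeaveCW.rotate {p : ℂ} {g : ℝ → ℂ} {l : List (ℝ → ℂ)} (h : LeaveCW p (g :: l)) :
    LeaveCW p (l ++ [g]) := by
  obtain ⟨F, θ, δ, hF, hδ, h1, h2⟩ := h
  simp only [List.length_cons] at h1
  refine ⟨F, fun i => if i < l.length then θ (i + 1) else θ 0 - 2 * Real.pi, δ, hF, hδ, ?_, ?_⟩
  · intro i j hij hj
    simp only [List.length_append, List.length_cons, List.length_nil] at hj
    have hi : i < l.length := by omega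
    simp only [if_pos hi]
    by_cases hj' : j < l.length
    · simp only [if_pos hj']
      exact h1 (i + 1) (j + 1) (by omega) (by omega)
    · simp only [if_neg hj']
      have := h1 0 (i + 1) (by omega) (by omega)
      constructor <;> linarith [this.1, this.2]
  · intro i f hf t ht
    by_cases hi : i < l.length
    · simp only [if_pos hi]
      rw [List.getElem?_append_left hi] at hf
      exact h2 (i + 1) f (by simpa using hf) t ht
    · simp only [if_neg hi]
      rw [List.getElem?_append_right (by omega)] at hf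
      have hi0 : i - l.length = 0 := by
        by_contra hne
        rw [List.getElem?_eq_none (by simp; omega)] at hf
        simp at hf
      rw [hi0] at hf
      simp only [List.getElem?_cons_zero, Option.some.injEq] at hf
      subst hf
      obtain ⟨r, hr, hr2⟩ := h2 0 g (by simp) t ht
      refine ⟨r, hr, ?_⟩
      rw [hr2]
      congr 2
      have : ((θ 0 - 2 * Real.pi : ℝ) : ℂ) * Complex.I = θ 0 * Complex.I - 2 * Real.pi * Complex.I := by
        push_cast; ring
      rw [this, Complex.exp_sub, Complex.exp_two_pi_mul_I, div_one]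

end Pool.MP_b347ba_lc
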