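import Pool.Agent.Lib.MP_b347ba_lc_h69.Sweep

/-! # The strands present at a given time of a sweep -/

namespace Pool.MP_b347ba_lc

open Set

namespace Sweep

variable {V : Type} {up dn : V → List V} (S : Sweep up dn)

theorem τ_inj : Function.Injective S.τ := by
  intro v w h
  have := S.ev_τ v
  rw [h, S.ev_τ w] at this
  simpa using this.symm

theorem mem_before {t : ℕ} (ht : t < S.N) (e : Strand V) :
    e ∈ S.st t ↔ e ∈ S.A t ∨ e ∈ evD dn (S.ev t) ∨ e ∈ S.B t := by
  rw [S.before t ht]; simp

theorem mem_after {t : ℕ} (ht : t < S.N) (e : Strand V) :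
    e ∈ S.st (t + 1) ↔ e ∈ S.A t ∨ e ∈ evU up (S.ev t) ∨ e ∈ S.B t := by
  rw [S.after t ht]; simp

theorem pass1 : ∀ t ≤ S.N, ∀ e ∈ S.st t, S.τ e.1 < t ∧ e.2 ∈ up e.1 := by
  intro t
  induction t with
  | zero =>
    intro _ e he
    rw [S.start] at he
    simp at he
  | succ t ih =>
    intro ht e he
    have ih' := fun h => (ih (by omega) e h)
    rw [S.mem_after (by omega)] at he
    rw [S.mem_before (by omega)] at ih'
    rcases he with he | he | he
    · have := ih' (Or.inl he)
      exact ⟨this.1.trans (Nat.lt_succ_self t), this.2⟩
    · cases hev : S.ev t with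
      | inl p =>
        have := ih' (Or.inr (Or.inl (by rw [hev] at he ⊢; simp [evD, evU] at he ⊢; tauto)))
        exact ⟨this.1.trans (Nat.lt_succ_self t), this.2⟩
      | inr v =>
        rw [hev] at he
        simp only [evU, List.mem_map] at he
        obtain ⟨w, hw, rfl⟩ := he
        have := S.τ_eq t (by omega) v hev
        exact ⟨by simp [this], hw⟩
    · have := ih' (Or.inr (Or.inr he))
      exact ⟨this.1.trans (Nat.lt_succ_self t), this.2⟩

theorem mono {v w : V} (h : w ∈ up v) : S.τ v < S.τ w := by
  have h1 : (v, w) ∈ S.st (S.τ w) := by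
    rw [S.mem_before (S.τ_lt w), S.ev_τ w]
    refine Or.inr (Or.inl ?_)
    simp only [evD, List.mem_map, Prod.mk.injEq, and_true, exists_eq_right]
    exact (S.hsymm v w).1 h
  exact (S.pass1 _ (S.τ_lt w).le _ h1).1

theorem evU_perm {t : ℕ} {p : Strand V × Strand V} (hev : S.ev t = .inl p) :
    (evU up (S.ev t)).Perm (evD dn (S.ev t)) := by
  rw [hev]
  exact List.Perm.swap _ _ _

/-- The strands present between the events `t - 1` and `t`. -/
theorem inv : ∀ t ≤ S.N, (S.st t).Nodup ∧
    ∀ e, e ∈ S.st t ↔ e.2 ∈ up e.1 ∧ S.τ e.1 < t ∧ t ≤ S.τ e.2 := by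
  intro t
  induction t with
  | zero =>
    intro _
    rw [S.start]
    simp
  | succ t ih =>
    intro ht
    obtain ⟨ih1, ih2⟩ := ih (by omega)
    have htN : t < S.N := by omega
    cases hev : S.ev t with
    | inl p =>
      have hperm : (S.st (t + 1)).Perm (S.st t) := by
        rw [S.before t htN, S.after t htN]
        exact ((S.evU_perm hev).append_left _).append_right _
      have hne : ∀ v, S.τ v ≠ t := by
        intro v hv
        have := S.ev_τ v
        rw [hv, hev] at this
        simp at this
      refine ⟨hperm.nodup_iff.2 ih1, fun e => ?_⟩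
      rw [hperm.mem_iff, ih2]
      have h1 := hne e.1
      have h2 := hne e.2
      constructor
      · rintro ⟨a, b, c⟩
        exact ⟨a, by omega, by omega⟩
      · rintro ⟨a, b, c⟩
        exact ⟨a, by omega, by omega⟩
    | inr v =>
      have hv := S.τ_eq t htN v hev
      have hbef := S.before t htN
      rw [hev] at hbef
      have hD : ∀ e : Strand V, e ∈ evD dn (.inr v) ↔ e.2 = v ∧ e.2 ∈ up e.1 := by
        intro e
        simp only [evD, List.mem_map]
        constructor
        · rintro ⟨w, hw, rfl⟩
          exact ⟨rfl, (S.hsymm _ _).2 hw⟩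
        · rintro ⟨h, h'⟩
          refine ⟨e.1, ?_, by rw [← h]⟩
          rw [← h]
          exact (S.hsymm _ _).1 h'
      have hU : ∀ e : Strand V, e ∈ evU up (.inr v) ↔ e.1 = v ∧ e.2 ∈ up e.1 := by
        intro e
        simp only [evU, List.mem_map]
        constructor
        · rintro ⟨w, hw, rfl⟩
          exact ⟨rfl, hw⟩
        · rintro ⟨h, h'⟩
          refine ⟨e.2, ?_, by rw [← h]⟩
          rw [← h]
          exact h'
      have hnd := ih1
      rw [hbef] at hnd
      have hAD : ∀ e ∈ S.A t, e ∉ evD dn (.inr v) := by
        intro e he he'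
        have := (List.nodup_append.1 (List.nodup_append.1 hnd).1).2.2
        exact this e he e he' rfl
      have hBD : ∀ e ∈ S.B t, e ∉ evD dn (.inr v) := by
        intro e he he'
        have := (List.nodup_append.1 hnd).2.2
        exact this e (List.mem_append_right _ he') e he rfl
      constructor
      · rw [S.after t htN, hev]
        have hAB : (S.A t ++ S.B t).Nodup := by
          refine hnd.sublist ?_
          rw [List.append_assoc]
          exact List.Sublist.append_left (List.sublist_append_right _ _) _
        have hUnd : (evU up (.inr v)).Nodup := by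
          simp only [evU]
          exact (S.hup v).map (fun a b h => by simpa using h)
        have hlt : ∀ e, e ∈ S.A t ∨ e ∈ S.B t → e ∉ evU up (.inr v) := by
          intro e he he'
          have h1 : e ∈ S.st t := by
            rw [S.mem_before htN]; tauto
          have h2 := ((ih2 e).1 h1).2.1
          have h3 := ((hU e).1 he').1
          rw [h3] at h2
          omega
        rw [List.nodup_append] at hAB
        rw [List.nodup_append, List.nodup_append]
        refine ⟨⟨hAB.1, hUnd, ?_⟩, hAB.2.1, ?_⟩
        · intro a ha b hb hab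
          subst hab
          exact hlt a (Or.inl ha) hb
        · intro a ha b hb hab
          subst hab
          rcases List.mem_append.1 ha with ha | ha
          · exact hAB.2.2 a ha a hb rfl
          · exact hlt a (Or.inr hb) ha
      · intro e
        rw [S.mem_after htN, hev, hU]
        constructor
        · intro h
          rcases h with h | h | h
          · have h1 : e ∈ S.st t := by
              rw [S.mem_before htN]; tauto
            have h2 := (ih2 e).1 h1
            have h3 : S.τ e.2 ≠ t := by
              intro h4
              rw [← hv] at h4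
              exact hAD e h ((hD e).2 ⟨S.τ_inj h4, h2.1⟩)
            exact ⟨h2.1, by omega, by omega⟩
          · have := S.mono h.2
            rw [h.1] at this
            exact ⟨h.2, by rw [h.1]; omega, by omega⟩
          · have h1 : e ∈ S.st t := by
              rw [S.mem_before htN]; tauto
            have h2 := (ih2 e).1 h1
            have h3 : S.τ e.2 ≠ t := by
              intro h4
              rw [← hv] at h4
              exact hBD e h ((hD e).2 ⟨S.τ_inj h4, h2.1⟩)
            exact ⟨h2.1, by omega, by omega⟩
        · rintro ⟨h1, h2, h3⟩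
          by_cases h4 : S.τ e.1 = t
          · rw [← hv] at h4
            exact Or.inr (Or.inl ⟨S.τ_inj h4, h1⟩)
          · have h5 : e ∈ S.st t := (ih2 e).2 ⟨h1, by omega, by omega⟩
            rw [S.mem_before htN, hev, hD] at h5
            rcases h5 with h5 | h5 | h5
            · exact Or.inl h5
            · rw [h5.1] at h3
              omega
            · exact Or.inr (Or.inr h5)

theorem nodup {t : ℕ} (ht : t ≤ S.N) : (S.st t).Nodup := (S.inv t ht).1

theorem mem_st {t : ℕ} (ht : t ≤ S.N) (e : Strand V) :
    e ∈ S.st t ↔ e.2 ∈ up e.1 ∧ S.τ e.1 < t ∧ t ≤ S.τ e.2 := (S.inv t ht).2 e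

end Sweep

end Pool.MP_b347ba_lc
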