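import Pool.Agent.Lib.MP_b347ba_lc_h69.Inv

/-! # Abscissas of the strands at the nodes of a sweep -/

namespace Pool.MP_b347ba_lc

open Set

section ListLemmas

variable {α : Type} [BEq α] [LawfulBEq α]

theorem idxOf_A {A M B : List α} {e : α} (he : e ∈ A) :
    (A ++ M ++ B).idxOf e = A.idxOf e := by
  rw [List.append_assoc, List.idxOf_append_of_mem he]

theorem idxOf_M {A M B : List α} {e : α} (hn : (A ++ M ++ B).Nodup) (he : e ∈ M) :
    (A ++ M ++ B).idxOf e = A.length + M.idxOf e := by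
  have hA : e ∉ A := fun h => (List.nodup_append.1 (List.nodup_append.1 hn).1).2.2 e h e he rfl
  rw [List.append_assoc, List.idxOf_append_of_notMem hA, List.idxOf_append_of_mem he]

theorem idxOf_B {A M B : List α} {e : α} (hn : (A ++ M ++ B).Nodup) (he : e ∈ B) :
    (A ++ M ++ B).idxOf e = A.length + M.length + B.idxOf e := by
  have hAM : e ∉ A ++ M := fun h => (List.nodup_append.1 hn).2.2 e h e he rfl
  rw [List.idxOf_append_of_notMem hAM, List.length_append]

theorem le_of_idxOf_lt {A M B : List α} {e f : α} (hn : (A ++ M ++ B).Nodup) (x : α → ℝ) (c : ℝ)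
    (hA : ∀ g ∈ A, x g = (A.idxOf g : ℝ)) (hM : ∀ g ∈ M, x g = (A.length : ℝ) - 1 / 2)
    (hB : ∀ g ∈ B, x g = c + (B.idxOf g : ℝ)) (hc : (A.length : ℝ) ≤ c)
    (he : e ∈ A ++ M ++ B) (hf : f ∈ A ++ M ++ B)
    (h : (A ++ M ++ B).idxOf e < (A ++ M ++ B).idxOf f) : x e ≤ x f := by
  have bA : ∀ g ∈ A, (A.idxOf g : ℝ) + 1 ≤ A.length := by
    intro g hg
    exact_mod_cast List.idxOf_lt_length_of_mem hg
  have bM : ∀ g ∈ M, M.idxOf g < M.length := fun g hg => List.idxOf_lt_length_of_mem hg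
  simp only [List.mem_append] at he hf
  rcases he with (he | he) | he <;> rcases hf with (hf | hf) | hf
  · rw [idxOf_A he, idxOf_A hf] at h
    rw [hA e he, hA f hf]
    exact_mod_cast h.le
  · rw [hA e he, hM f hf]
    have := bA e he
    linarith
  · rw [hA e he, hB f hf]
    have := bA e he
    have h2 : (0 : ℝ) ≤ (B.idxOf f : ℝ) := by positivity
    linarith
  · rw [idxOf_M hn he, idxOf_A hf] at h
    have := List.idxOf_lt_length_of_mem hf
    omega
  · rw [hM e he, hM f hf]
  · rw [hM e he, hB f hf]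
    have h2 : (0 : ℝ) ≤ (B.idxOf f : ℝ) := by positivity
    linarith
  · rw [idxOf_B hn he, idxOf_A hf] at h
    have := List.idxOf_lt_length_of_mem hf
    omega
  · rw [idxOf_B hn he, idxOf_M hn hf] at h
    have := bM f hf
    omega
  · rw [idxOf_B hn he, idxOf_B hn hf] at h
    rw [hB e he, hB f hf]
    have : (B.idxOf e : ℝ) ≤ (B.idxOf f : ℝ) := by
      exact_mod_cast (by omega : B.idxOf e ≤ B.idxOf f)
    linarith

end ListLemmas

namespace Sweep

variable {V : Type} {up dn : V → List V} (S : Sweep up dn)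

open Classical in
/-- Abscissa of a strand at the node `n` of the sweep: the event `t` takes place at the node
`2 * t + 1`. -/
noncomputable def xn (n : ℕ) (e : Strand V) : ℝ :=
  if n % 2 = 0 then ((S.st (n / 2)).idxOf e : ℝ)
  else if e ∈ S.A (n / 2) ∨ e ∈ S.B (n / 2) then
    (((S.st (n / 2)).idxOf e : ℝ) + ((S.st (n / 2 + 1)).idxOf e : ℝ)) / 2
  else ((S.A (n / 2)).length : ℝ) - 1 / 2

/-- The strands taking part in the event `t`. -/
def Part (t : ℕ) (e : Strand V) : Prop := e ∈ evD dn (S.ev t) ∨ e ∈ evU up (S.ev t)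

open Classical in
theorem xn_even (t : ℕ) (e : Strand V) : S.xn (2 * t) e = ((S.st t).idxOf e : ℝ) := by
  have h1 : 2 * t % 2 = 0 := by omega
  have h2 : 2 * t / 2 = t := by omega
  rw [xn, if_pos h1, h2]

theorem nodup_before {t : ℕ} (ht : t < S.N) : (S.A t ++ evD dn (S.ev t) ++ S.B t).Nodup := by
  rw [← S.before t ht]
  exact S.nodup ht.le

theorem nodup_after {t : ℕ} (ht : t < S.N) : (S.A t ++ evU up (S.ev t) ++ S.B t).Nodup := by
  rw [← S.after t ht]
  exact S.nodup ht

theorem part_not {t : ℕ} (ht : t < S.N) {e : Strand V} (he : S.Part t e) :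
    e ∉ S.A t ∧ e ∉ S.B t := by
  have h1 := S.nodup_before ht
  have h2 := S.nodup_after ht
  rw [List.nodup_append, List.nodup_append] at h1 h2
  rcases he with he | he
  · exact ⟨fun h => h1.1.2.2 e h e he rfl,
      fun h => h1.2.2 e (List.mem_append_right _ he) e h rfl⟩
  · exact ⟨fun h => h2.1.2.2 e h e he rfl,
      fun h => h2.2.2 e (List.mem_append_right _ he) e h rfl⟩

theorem xn_part {t : ℕ} (ht : t < S.N) {e : Strand V} (he : S.Part t e) :
    S.xn (2 * t + 1) e = ((S.A t).length : ℝ) - 1 / 2 := by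
  have h1 : ¬ ((2 * t + 1) % 2 = 0) := by omega
  have h2 : (2 * t + 1) / 2 = t := by omega
  have h3 := S.part_not ht he
  rw [xn, if_neg h1, h2, if_neg (by tauto)]

open Classical in
theorem xn_A {t : ℕ} (ht : t < S.N) {e : Strand V} (he : e ∈ S.A t) :
    S.xn (2 * t + 1) e = ((S.A t).idxOf e : ℝ) := by
  have h1 : ¬ ((2 * t + 1) % 2 = 0) := by omega
  have h2 : (2 * t + 1) / 2 = t := by omega
  rw [xn, if_neg h1, h2, if_pos (Or.inl he), S.before t ht, S.after t ht, idxOf_A he, idxOf_A he]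
  ring

open Classical in
theorem xn_B {t : ℕ} (ht : t < S.N) {e : Strand V} (he : e ∈ S.B t) :
    S.xn (2 * t + 1) e = ((S.A t).length + ((evD dn (S.ev t)).length +
      (evU up (S.ev t)).length : ℝ) / 2) + ((S.B t).idxOf e : ℝ) := by
  have h1 : ¬ ((2 * t + 1) % 2 = 0) := by omega
  have h2 : (2 * t + 1) / 2 = t := by omega
  rw [xn, if_neg h1, h2, if_pos (Or.inr he), S.before t ht, S.after t ht,
    idxOf_B (S.nodup_before ht) he, idxOf_B (S.nodup_after ht) he]
  push_cast
  ring

theorem cB (t : ℕ) : ((S.A t).length : ℝ) ≤ ((S.A t).length + ((evD dn (S.ev t)).length +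
      (evU up (S.ev t)).length : ℝ) / 2) := by
  have : (0 : ℝ) ≤ ((evD dn (S.ev t)).length + (evU up (S.ev t)).length : ℝ) / 2 := by positivity
  linarith

theorem le_before {t : ℕ} (ht : t < S.N) {e f : Strand V} (he : e ∈ S.st t) (hf : f ∈ S.st t)
    (h : S.xn (2 * t) e < S.xn (2 * t) f) : S.xn (2 * t + 1) e ≤ S.xn (2 * t + 1) f := by
  classical
  rw [S.xn_even, S.xn_even] at h
  rw [S.before t ht] at he hf h
  exact le_of_idxOf_lt (S.nodup_before ht) (S.xn (2 * t + 1)) _ (fun g hg => S.xn_A ht hg)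
    (fun g hg => S.xn_part ht (Or.inl hg)) (fun g hg => S.xn_B ht hg) (S.cB t) he hf
    (by exact_mod_cast h)

theorem le_after {t : ℕ} (ht : t < S.N) {e f : Strand V} (he : e ∈ S.st (t + 1))
    (hf : f ∈ S.st (t + 1)) (h : S.xn (2 * (t + 1)) e < S.xn (2 * (t + 1)) f) :
    S.xn (2 * t + 1) e ≤ S.xn (2 * t + 1) f := by
  classical
  rw [S.xn_even, S.xn_even] at h
  rw [S.after t ht] at he hf h
  exact le_of_idxOf_lt (S.nodup_after ht) (S.xn (2 * t + 1)) _ (fun g hg => S.xn_A ht hg)
    (fun g hg => S.xn_part ht (Or.inr hg)) (fun g hg => S.xn_B ht hg) (S.cB t) he hf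
    (by exact_mod_cast h)

theorem xn_even_ne {t : ℕ} {e f : Strand V} (he : e ∈ S.st t) (hef : e ≠ f) :
    S.xn (2 * t) e ≠ S.xn (2 * t) f := by
  classical
  rw [S.xn_even, S.xn_even]
  intro h
  exact hef ((List.idxOf_inj he).1 (by exact_mod_cast h))

/-- Strands present at the event `t`. -/
def At (t : ℕ) (e : Strand V) : Prop := e ∈ S.A t ∨ S.Part t e ∨ e ∈ S.B t

theorem eq_odd_one {t : ℕ} (ht : t < S.N) {e : Strand V} (he : S.At t e)
    (h : S.xn (2 * t + 1) e = ((S.A t).length : ℝ) - 1 / 2) : S.Part t e := by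
  classical
  rcases he with he | he | he
  · rw [S.xn_A ht he] at h
    have : ((S.A t).idxOf e : ℝ) + 1 ≤ (S.A t).length := by
      exact_mod_cast List.idxOf_lt_length_of_mem he
    linarith
  · exact he
  · rw [S.xn_B ht he] at h
    have h1 := S.cB t
    have h2 : (0 : ℝ) ≤ ((S.B t).idxOf e : ℝ) := by positivity
    linarith

theorem eq_odd {t : ℕ} (ht : t < S.N) {e f : Strand V} (he : S.At t e) (hf : S.At t f)
    (hef : e ≠ f) (h : S.xn (2 * t + 1) e = S.xn (2 * t + 1) f) : S.Part t e ∧ S.Part t f := by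
  classical
  have key : S.Part t e ∨ S.Part t f := by
    by_contra hc
    push Not at hc
    have hA : ∀ g ∈ S.A t, ((S.A t).idxOf g : ℝ) + 1 ≤ (S.A t).length := by
      intro g hg
      exact_mod_cast List.idxOf_lt_length_of_mem hg
    have h1 := S.cB t
    rcases he with he | he | he
    · rcases hf with hf | hf | hf
      · rw [S.xn_A ht he, S.xn_A ht hf] at h
        exact hef ((List.idxOf_inj he).1 (by exact_mod_cast h))
      · exact hc.2 hf
      · rw [S.xn_A ht he, S.xn_B ht hf] at h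
        have h2 : (0 : ℝ) ≤ ((S.B t).idxOf f : ℝ) := by positivity
        have h3 := hA e he
        linarith
    · exact hc.1 he
    · rcases hf with hf | hf | hf
      · rw [S.xn_A ht hf, S.xn_B ht he] at h
        have h2 : (0 : ℝ) ≤ ((S.B t).idxOf e : ℝ) := by positivity
        have h3 := hA f hf
        linarith
      · exact hc.2 hf
      · rw [S.xn_B ht he, S.xn_B ht hf] at h
        exact hef ((List.idxOf_inj he).1 (by exact_mod_cast (add_left_cancel h)))
  rcases key with key | key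
  · exact ⟨key, S.eq_odd_one ht hf (h ▸ S.xn_part ht key)⟩
  · exact ⟨S.eq_odd_one ht he (h ▸ S.xn_part ht key), key⟩

end Sweep

end Pool.MP_b347ba_lc
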