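import Pool.Agent.Lib.MP_b347ba_lc_h69.Curve

/-! # The good drawing given by a sweep -/

namespace Pool.MP_b347ba_lc

open Set

theorem pairwise_idxOf {α : Type} [BEq α] [LawfulBEq α] {l : List α} (h : l.Nodup) :
    l.Pairwise fun a b => l.idxOf a < l.idxOf b := by
  rw [List.pairwise_iff_getElem]
  intro i j hi hj hij
  rw [h.idxOf_getElem, h.idxOf_getElem]
  exact hij

theorem dAng_up_lt {x y : ℝ} (h : x < y) : dAng (true, y) < dAng (true, x) := by
  have := Real.arctan_strictMono h
  simp only [dAng, if_true]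
  linarith

theorem dAng_down_lt {x y : ℝ} (h : x < y) : dAng (false, x) < dAng (false, y) := by
  have := Real.arctan_strictMono h
  simp only [dAng, Bool.false_eq_true, if_false]
  linarith

theorem dAng_down_lt_up (x y : ℝ) : dAng (false, x) < dAng (true, y) := by
  have h1 := Real.arctan_lt_pi_div_two x
  have h2 := Real.arctan_lt_pi_div_two y
  simp only [dAng, Bool.false_eq_true, if_false, if_true]
  linarith

theorem crosses_of {g g' : ℝ → ℂ} {a b : ℝ} {h1 h2 h3 h4 : ℝ → ℂ}
    (h : LeaveCW (g a) [h1, h2, h3, h4])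
    (hc : ((h1 = (fun t => g (a + t)) ∧ h3 = fun t => g (a - t)) ∨
        (h1 = (fun t => g (a - t)) ∧ h3 = fun t => g (a + t))) ∧
      ((h2 = (fun t => g' (b + t)) ∧ h4 = fun t => g' (b - t)) ∨
        (h2 = (fun t => g' (b - t)) ∧ h4 = fun t => g' (b + t)))) : Crosses g a g' b := by
  obtain ⟨⟨rfl, rfl⟩ | ⟨rfl, rfl⟩, ⟨rfl, rfl⟩ | ⟨rfl, rfl⟩⟩ := hc
  · exact Or.inl h
  · exact Or.inr h
  · exact Or.inr h.rotate.rotate
  · exact Or.inl h.rotate.rotate

theorem crosses_of' {g g' : ℝ → ℂ} {a b : ℝ} {h1 h2 h3 h4 : ℝ → ℂ}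
    (h : LeaveCW (g a) [h1, h2, h3, h4])
    (hc : ((h1 = (fun t => g' (b + t)) ∧ h3 = fun t => g' (b - t)) ∨
        (h1 = (fun t => g' (b - t)) ∧ h3 = fun t => g' (b + t))) ∧
      ((h2 = (fun t => g (a + t)) ∧ h4 = fun t => g (a - t)) ∨
        (h2 = (fun t => g (a - t)) ∧ h4 = fun t => g (a + t)))) : Crosses g a g' b := by
  refine crosses_of (h1 := h2) (h2 := h3) (h3 := h4) (h4 := h1) h.rotate ⟨hc.2, ?_⟩
  rcases hc.1 with ⟨h1, h2⟩ | ⟨h1, h2⟩
  · exact Or.inr ⟨h2, h1⟩
  · exact Or.inl ⟨h2, h1⟩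

namespace Sweep

variable {V : Type} {up dn : V → List V} (S : Sweep up dn)

/-- The strand of an edge. -/
def str (u v : V) : Strand V := if S.τ u < S.τ v then (u, v) else (v, u)

/-- Height on an edge. -/
noncomputable def hgt (u v : V) (s : ℝ) : ℝ :=
  2 * (S.τ u : ℝ) + 1 + (2 * (S.τ v : ℝ) - 2 * S.τ u) * s

/-- The arc of an edge. -/
noncomputable def arc (u v : V) (s : ℝ) : ℂ := S.pt (S.str u v) (S.hgt u v s)

theorem adj {u v : V} (h : v ∈ up u ++ (dn u).reverse) :
    (v ∈ up u ∧ S.τ u < S.τ v ∧ S.str u v = (u, v)) ∨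
      (u ∈ up v ∧ S.τ v < S.τ u ∧ S.str u v = (v, u)) := by
  rw [List.mem_append, List.mem_reverse, ← S.hsymm] at h
  rcases h with h | h
  · have := S.mono h
    exact Or.inl ⟨h, this, by rw [str, if_pos this]⟩
  · have := S.mono h
    exact Or.inr ⟨h, this, by rw [str, if_neg (by omega)]⟩

theorem str_symm {u v : V} (h : v ∈ up u ++ (dn u).reverse) : S.str v u = S.str u v := by
  rcases S.adj h with ⟨_, h2, h3⟩ | ⟨_, h2, h3⟩
  · rw [h3, str, if_neg (by omega)]
  · rw [h3, str, if_pos h2]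

theorem str_ne {u v x y : V} (h1 : v ∈ up u ++ (dn u).reverse) (h2 : y ∈ up x ++ (dn x).reverse)
    (h : s(u, v) ≠ s(x, y)) : S.str u v ≠ S.str x y := by
  intro he
  apply h
  rcases S.adj h1 with ⟨_, _, h3⟩ | ⟨_, _, h3⟩ <;> rcases S.adj h2 with ⟨_, _, h4⟩ | ⟨_, _, h4⟩ <;>
    rw [h3, h4, Prod.mk.injEq] at he <;> rw [Sym2.eq_iff] <;> tauto

theorem alive {u v : V} (h : v ∈ up u ++ (dn u).reverse) {s : ℝ} (hs : s ∈ Icc (0 : ℝ) 1) :
    S.Alive (S.str u v) (S.hgt u v s) := by
  obtain ⟨hs0, hs1⟩ := hs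
  rcases S.adj h with ⟨h1, h2, h3⟩ | ⟨h1, h2, h3⟩
  · rw [h3]
    have h2' : (S.τ u : ℝ) < S.τ v := by exact_mod_cast h2
    exact ⟨h1, by simp only [hgt]; nlinarith, by simp only [hgt]; nlinarith⟩
  · rw [h3]
    have h2' : (S.τ v : ℝ) < S.τ u := by exact_mod_cast h2
    exact ⟨h1, by simp only [hgt]; nlinarith, by simp only [hgt]; nlinarith⟩

theorem interior {u v : V} (h : v ∈ up u ++ (dn u).reverse) {s : ℝ} (hs : s ∈ Ioo (0 : ℝ) 1) :
    2 * (S.τ (S.str u v).1 : ℝ) + 1 < S.hgt u v s ∧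
      S.hgt u v s < 2 * (S.τ (S.str u v).2 : ℝ) + 1 := by
  obtain ⟨hs0, hs1⟩ := hs
  rcases S.adj h with ⟨h1, h2, h3⟩ | ⟨h1, h2, h3⟩
  · rw [h3]
    have h2' : (S.τ u : ℝ) < S.τ v := by exact_mod_cast h2
    exact ⟨by simp only [hgt]; nlinarith, by simp only [hgt]; nlinarith⟩
  · rw [h3]
    have h2' : (S.τ v : ℝ) < S.τ u := by exact_mod_cast h2
    exact ⟨by simp only [hgt]; nlinarith, by simp only [hgt]; nlinarith⟩

theorem pt_inj {e f : Strand V} {r r' : ℝ} (h : S.pt e r = S.pt f r') :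
    r = r' ∧ S.ab e r = S.ab f r := by
  have h1 := congrArg Complex.re h
  have h2 := congrArg Complex.im h
  simp only [pt] at h1 h2
  subst h2
  exact ⟨rfl, h1⟩

theorem part_inr {t : ℕ} {v : V} (hev : S.ev t = .inr v) {e : Strand V} (he : S.Part t e) :
    e.1 = v ∨ e.2 = v := by
  rw [Part, hev] at he
  simp only [evD, evU, List.mem_map] at he
  rcases he with ⟨w, _, rfl⟩ | ⟨w, _, rfl⟩
  · exact Or.inr rfl
  · exact Or.inl rfl

theorem part_inl {t : ℕ} {p : Strand V × Strand V} (hev : S.ev t = .inl p) {e : Strand V} :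
    S.Part t e ↔ e = p.1 ∨ e = p.2 := by
  rw [Part, hev]
  simp only [evD, evU, List.mem_cons, List.not_mem_nil, or_false]
  tauto

theorem swap_of_interior {t : ℕ} (ht : t < S.N) {e : Strand V} (he : S.Part t e)
    (h1 : 2 * (S.τ e.1 : ℝ) + 1 < 2 * t + 1) (h2 : (2 * t + 1 : ℝ) < 2 * (S.τ e.2 : ℝ) + 1) :
    ∃ p, S.ev t = .inl p := by
  cases hev : S.ev t with
  | inl p => exact ⟨p, rfl⟩
  | inr v =>
    exfalso
    have hv := S.τ_eq t ht v hev
    rcases S.part_inr hev he with h | h
    · rw [h, hv] at h1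
      exact lt_irrefl _ h1
    · rw [h, hv] at h2
      exact lt_irrefl _ h2

theorem twice {e f : Strand V} (hef : e ≠ f) (he : e.2 ∈ up e.1) (hf : f.2 ∈ up f.1) {t t' : ℕ}
    (htt : t < t') (ht' : t' < S.N) (h1 : S.Part t e) (h2 : S.Part t f) (h3 : S.Part t' e)
    (h4 : S.Part t' f) : False := by
  have ht : t < S.N := htt.trans ht'
  have me := S.mono he
  have mf := S.mono hf
  cases hev : S.ev t with
  | inl p =>
    rw [S.part_inl hev] at h1 h2
    cases hev' : S.ev t' with
    | inl p' =>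
      rw [S.part_inl hev'] at h3 h4
      have := S.once t t' htt ht' p.1 p.2 p'.1 p'.2 hev hev'
      have key1 : p'.1 = p.1 → p'.2 = p.2 → False := fun a b => this.1 (Prod.ext a b)
      have key2 : p'.1 = p.2 → p'.2 = p.1 → False := fun a b => this.2 (Prod.ext a b)
      rcases h1 with h1 | h1 <;> rcases h2 with h2 | h2 <;> rcases h3 with h3 | h3 <;>
        rcases h4 with h4 | h4 <;>
        first
        | exact hef (h1.trans h2.symm)
        | exact hef (h3.trans h4.symm)
        | exact key1 (h3.symm.trans h1) (h4.symm.trans h2)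
        | exact key1 (h4.symm.trans h2) (h3.symm.trans h1)
        | exact key2 (h3.symm.trans h1) (h4.symm.trans h2)
        | exact key2 (h4.symm.trans h2) (h3.symm.trans h1)
    | inr v' =>
      have hi := S.indep t ht p.1 p.2 hev
      have i3 := S.part_inr hev' h3
      have i4 := S.part_inr hev' h4
      rcases h1 with rfl | rfl <;> rcases h2 with rfl | rfl
      · exact hef rfl
      · rcases i3 with i3 | i3 <;> rcases i4 with i4 | i4
        · exact hi.1 (i3.trans i4.symm)
        · exact hi.2.1 (i3.trans i4.symm)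
        · exact hi.2.2.1 (i3.trans i4.symm)
        · exact hi.2.2.2 (i3.trans i4.symm)
      · rcases i3 with i3 | i3 <;> rcases i4 with i4 | i4
        · exact hi.1 (i4.trans i3.symm)
        · exact hi.2.2.1 (i4.trans i3.symm)
        · exact hi.2.1 (i4.trans i3.symm)
        · exact hi.2.2.2 (i4.trans i3.symm)
      · exact hef rfl
  | inr v =>
    have i1 := S.part_inr hev h1
    have i2 := S.part_inr hev h2
    cases hev' : S.ev t' with
    | inl p' =>
      rw [S.part_inl hev'] at h3 h4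
      have hi := S.indep t' ht' p'.1 p'.2 hev'
      rcases h3 with rfl | rfl <;> rcases h4 with rfl | rfl
      · exact hef rfl
      · rcases i1 with i3 | i3 <;> rcases i2 with i4 | i4
        · exact hi.1 (i3.trans i4.symm)
        · exact hi.2.1 (i3.trans i4.symm)
        · exact hi.2.2.1 (i3.trans i4.symm)
        · exact hi.2.2.2 (i3.trans i4.symm)
      · rcases i1 with i3 | i3 <;> rcases i2 with i4 | i4
        · exact hi.1 (i4.trans i3.symm)
        · exact hi.2.2.1 (i4.trans i3.symm)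
        · exact hi.2.1 (i4.trans i3.symm)
        · exact hi.2.2.2 (i4.trans i3.symm)
      · exact hef rfl
    | inr v' =>
      have i3 := S.part_inr hev' h3
      have i4 := S.part_inr hev' h4
      have hv := S.τ_eq t ht v hev
      have hv' := S.τ_eq t' ht' v' hev'
      have key : ∀ g : Strand V, S.τ g.1 < S.τ g.2 → (g.1 = v ∨ g.2 = v) →
          (g.1 = v' ∨ g.2 = v') → g = (v, v') := by
        intro g hg h h'
        rcases h with h | h <;> rcases h' with h' | h'
        · rw [← h, h'] at hv; omega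
        · exact Prod.ext h h'
        · rw [h, h', hv, hv'] at hg; omega
        · rw [← h, h'] at hv; omega
      exact hef ((key e me i1 i3).trans (key f mf i2 i4).symm)

theorem hgt_add (u v : V) (a s : ℝ) :
    S.hgt u v (a + s) = S.hgt u v a + (2 * (S.τ v : ℝ) - 2 * S.τ u) * s := by
  simp only [hgt]; ring

theorem hgt_sub (u v : V) (a s : ℝ) :
    S.hgt u v (a - s) = S.hgt u v a - (2 * (S.τ v : ℝ) - 2 * S.τ u) * s := by
  simp only [hgt]; ring

/-- The two branches of an arc at an event in which it takes part. -/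
theorem branches {u v : V} (h : v ∈ up u ++ (dn u).reverse) {t : ℕ} (ht : t < S.N)
    (hp : S.Part t (S.str u v)) {a : ℝ} (ha : S.hgt u v a = 2 * t + 1) :
    ∃ gU gD : ℝ → ℂ, ((gU = (fun s => S.arc u v (a + s)) ∧ gD = fun s => S.arc u v (a - s)) ∨
      (gU = (fun s => S.arc u v (a - s)) ∧ gD = fun s => S.arc u v (a + s))) ∧
      HasDir (S.cen t) gU
        (true, S.xn (2 * (t + 1)) (S.str u v) - (((S.A t).length : ℝ) - 1 / 2)) ∧
      HasDir (S.cen t) gD
        (false, S.xn (2 * t) (S.str u v) - (((S.A t).length : ℝ) - 1 / 2)) := by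
  rcases S.adj h with ⟨_, h2, _⟩ | ⟨_, h2, _⟩
  · have h2' : (0 : ℝ) < 2 * (S.τ v : ℝ) - 2 * S.τ u := by
      have : (S.τ u : ℝ) < S.τ v := by exact_mod_cast h2
      linarith
    refine ⟨_, _, Or.inl ⟨rfl, rfl⟩, S.dir_up ht hp h2' fun s => ?_,
      S.dir_down ht hp h2' fun s => ?_⟩
    · rw [arc, hgt_add, ha]
    · rw [arc, hgt_sub, ha]
  · have h2' : (0 : ℝ) < 2 * (S.τ u : ℝ) - 2 * S.τ v := by
      have : (S.τ v : ℝ) < S.τ u := by exact_mod_cast h2
      linarith
    refine ⟨_, _, Or.inr ⟨rfl, rfl⟩, S.dir_up ht hp h2' fun s => ?_,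
      S.dir_down ht hp h2' fun s => ?_⟩
    · rw [arc, hgt_sub, ha]
      congr 1; ring
    · rw [arc, hgt_add, ha]
      congr 1; ring

theorem xn_swap {t : ℕ} (ht : t < S.N) {p : Strand V × Strand V} (hev : S.ev t = .inl p) :
    S.xn (2 * t) p.1 = (S.A t).length ∧ S.xn (2 * t) p.2 = (S.A t).length + 1 ∧
      S.xn (2 * (t + 1)) p.2 = (S.A t).length ∧ S.xn (2 * (t + 1)) p.1 = (S.A t).length + 1 := by
  classical
  have h1 := S.nodup_before ht
  have h2 := S.nodup_after ht
  have hne : p.1 ≠ p.2 := by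
    have := S.indep t ht p.1 p.2 hev
    intro h
    exact this.1 (by rw [h])
  rw [S.xn_even, S.xn_even, S.xn_even, S.xn_even, S.before t ht, S.after t ht,
    idxOf_M h1 (by rw [hev]; simp [evD]), idxOf_M h1 (by rw [hev]; simp [evD]),
    idxOf_M h2 (by rw [hev]; simp [evU]), idxOf_M h2 (by rw [hev]; simp [evU]), hev]
  have e1 : p.1 ≠ p.2 := hne
  have e2 : p.2 ≠ p.1 := hne.symm
  simp only [evD, evU]
  have i1 : List.idxOf p.1 [p.1, p.2] = 0 := List.idxOf_cons_self
  have i2 : List.idxOf p.2 [p.2, p.1] = 0 := List.idxOf_cons_self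
  have i3 : List.idxOf p.2 [p.1, p.2] = 1 := by
    rw [List.idxOf_cons_ne _ e1, List.idxOf_cons_self]
  have i4 : List.idxOf p.1 [p.2, p.1] = 1 := by
    rw [List.idxOf_cons_ne _ e2, List.idxOf_cons_self]
  rw [i1, i2, i3, i4]
  simp

theorem leave_swap {t : ℕ} (ht : t < S.N) {p : Strand V × Strand V} (hev : S.ev t = .inl p)
    {aU aD bU bD : ℝ → ℂ}
    (h1 : HasDir (S.cen t) aU (true, S.xn (2 * (t + 1)) p.1 - (((S.A t).length : ℝ) - 1 / 2)))
    (h2 : HasDir (S.cen t) aD (false, S.xn (2 * t) p.1 - (((S.A t).length : ℝ) - 1 / 2)))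
    (h3 : HasDir (S.cen t) bU (true, S.xn (2 * (t + 1)) p.2 - (((S.A t).length : ℝ) - 1 / 2)))
    (h4 : HasDir (S.cen t) bD (false, S.xn (2 * t) p.2 - (((S.A t).length : ℝ) - 1 / 2))) :
    LeaveCW (S.cen t) [bU, aU, bD, aD] := by
  obtain ⟨e1, e2, e3, e4⟩ := S.xn_swap ht hev
  rw [e4] at h1
  rw [e1] at h2
  rw [e3] at h3
  rw [e2] at h4
  refine leaveCW_of_dirs (List.Forall₂.cons h3 (List.Forall₂.cons h1 (List.Forall₂.cons h4
    (List.Forall₂.cons h2 List.Forall₂.nil)))) ?_
  simp only [List.pairwise_cons, List.mem_cons, List.not_mem_nil, or_false, forall_eq_or_imp,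
    forall_eq, List.Pairwise.nil, and_true, IsEmpty.forall_iff, implies_true]
  refine ⟨⟨?_, ?_, ?_⟩, ⟨?_, ?_⟩, ?_⟩
  · exact dAng_up_lt (by linarith)
  · exact dAng_down_lt_up _ _
  · exact dAng_down_lt_up _ _
  · exact dAng_down_lt_up _ _
  · exact dAng_down_lt_up _ _
  · exact dAng_down_lt (by linarith)

theorem proper {u v x y : V} (h1 : v ∈ up u ++ (dn u).reverse) (h2 : y ∈ up x ++ (dn x).reverse)
    (h : s(u, v) ≠ s(x, y)) {a b : ℝ} (ha : a ∈ Ioo (0 : ℝ) 1) (hb : b ∈ Ioo (0 : ℝ) 1)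
    (hab : S.arc u v a = S.arc x y b) : Crosses (S.arc u v) a (S.arc x y) b := by
  have hne := S.str_ne h1 h2 h
  have ha' : a ∈ Icc (0 : ℝ) 1 := Ioo_subset_Icc_self ha
  have hb' : b ∈ Icc (0 : ℝ) 1 := Ioo_subset_Icc_self hb
  obtain ⟨hh, hx⟩ := S.pt_inj hab
  have al1 := S.alive h1 ha'
  have al2 := S.alive h2 hb'
  rw [← hh] at al2
  obtain ⟨t, ht, hr, p1, p2⟩ := S.meet hne al1 al2 hx
  have int := S.interior h1 ha
  rw [hr] at int
  obtain ⟨p, hev⟩ := S.swap_of_interior ht p1 int.1 int.2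
  obtain ⟨gU, gD, hg, dU, dD⟩ := S.branches h1 ht p1 hr
  obtain ⟨gU', gD', hg', dU', dD'⟩ := S.branches h2 ht p2 (hh.symm.trans hr)
  have hc : S.arc u v a = S.cen t := by rw [arc, hr, S.pt_part ht p1]
  rw [S.part_inl hev] at p1 p2
  rcases p1 with p1 | p1 <;> rcases p2 with p2 | p2
  · exact absurd (p1.trans p2.symm) hne
  · rw [p1] at dU dD
    rw [p2] at dU' dD'
    have := S.leave_swap ht hev dU dD dU' dD'
    rw [← hc] at this
    exact crosses_of' this ⟨hg', hg⟩
  · rw [p1] at dU dD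
    rw [p2] at dU' dD'
    have := S.leave_swap ht hev dU' dD' dU dD
    rw [← hc] at this
    exact crosses_of this ⟨hg, hg'⟩
  · exact absurd (p1.trans p2.symm) hne

theorem rotation (v : V) :
    LeaveCW (S.cen (S.τ v)) ((up v ++ (dn v).reverse).map (S.arc v)) := by
  classical
  have ht := S.τ_lt v
  have hev := S.ev_τ v
  have h1 := S.nodup_before ht
  have h2 := S.nodup_after ht
  set t := S.τ v with htdef
  rw [List.map_append]
  refine leaveCW_of_dirs (ds := ((up v).map fun w =>
      (true, ((evU up (.inr v)).idxOf (v, w) : ℝ) + 1 / 2)) ++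
    ((dn v).reverse.map fun w => (false, ((evD dn (.inr v)).idxOf (w, v) : ℝ) + 1 / 2))) ?_ ?_
  · refine List.rel_append ?_ ?_
    · rw [List.forall₂_map_left_iff, List.forall₂_map_right_iff, List.forall₂_same]
      intro w hw
      have hm := S.mono hw
      have hadj : w ∈ up v ++ (dn v).reverse := List.mem_append_left _ hw
      have hstr : S.str v w = (v, w) := by rw [str, if_pos hm]
      have hmem : (v, w) ∈ evU up (.inr v) := List.mem_map.2 ⟨w, hw, rfl⟩
      have hp : S.Part t (v, w) := Or.inr (by rw [hev]; exact hmem)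
      have c : (0 : ℝ) < 2 * (S.τ w : ℝ) - 2 * S.τ v := by
        have : (S.τ v : ℝ) < S.τ w := by exact_mod_cast hm
        linarith
      have := S.dir_up ht hp (g := S.arc v w) c (fun s => by
        rw [arc, hstr, hgt])
      convert this using 2
      rw [S.xn_even, S.after t ht, idxOf_M h2 (by rw [hev]; exact hmem), hev]
      push_cast
      ring
    · rw [List.forall₂_map_left_iff, List.forall₂_map_right_iff, List.forall₂_same]
      intro w hw
      rw [List.mem_reverse] at hw
      have hm := S.mono ((S.hsymm w v).2 hw)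
      have hstr : S.str v w = (w, v) := by rw [str, if_neg (by omega)]
      have hmem : (w, v) ∈ evD dn (.inr v) := List.mem_map.2 ⟨w, hw, rfl⟩
      have hp : S.Part t (w, v) := Or.inl (by rw [hev]; exact hmem)
      have c : (0 : ℝ) < 2 * (S.τ v : ℝ) - 2 * S.τ w := by
        have : (S.τ w : ℝ) < S.τ v := by exact_mod_cast hm
        linarith
      have := S.dir_down ht hp (g := S.arc v w) c (fun s => by
        rw [arc, hstr, hgt]
        congr 1
        ring)
      convert this using 2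
      rw [S.xn_even, S.before t ht, idxOf_M h1 (by rw [hev]; exact hmem), hev]
      push_cast
      ring
  · rw [List.pairwise_append]
    refine ⟨?_, ?_, ?_⟩
    · rw [List.pairwise_map]
      have hnd : (evU up (.inr v)).Nodup := by
        rw [← hev]
        exact (List.nodup_append.1 (List.nodup_append.1 h2).1).2.1
      have := pairwise_idxOf hnd
      rw [show evU up (.inr v) = (up v).map (fun w => (v, w)) from rfl, List.pairwise_map] at this
      refine this.imp ?_
      intro a b hab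
      refine dAng_up_lt ?_
      have : ((List.idxOf (v, a) ((up v).map fun w => (v, w)) : ℕ) : ℝ) <
        ((List.idxOf (v, b) ((up v).map fun w => (v, w)) : ℕ) : ℝ) := by exact_mod_cast hab
      simp only [evU]
      linarith
    · rw [List.pairwise_map, List.pairwise_reverse]
      have hnd : (evD dn (.inr v)).Nodup := by
        rw [← hev]
        exact (List.nodup_append.1 (List.nodup_append.1 h1).1).2.1
      have := pairwise_idxOf hnd
      rw [show evD dn (.inr v) = (dn v).map (fun w => (w, v)) from rfl, List.pairwise_map] at this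
      refine this.imp ?_
      intro a b hab
      refine dAng_down_lt ?_
      have : ((List.idxOf (a, v) ((dn v).map fun w => (w, v)) : ℕ) : ℝ) <
        ((List.idxOf (b, v) ((dn v).map fun w => (w, v)) : ℕ) : ℝ) := by exact_mod_cast hab
      simp only [evD]
      linarith
    · intro a ha b hb
      simp only [List.mem_map] at ha hb
      obtain ⟨_, _, rfl⟩ := ha
      obtain ⟨_, _, rfl⟩ := hb
      exact dAng_down_lt_up _ _

theorem part_left {e : Strand V} (he : e.2 ∈ up e.1) : S.Part (S.τ e.1) e := by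
  refine Or.inr ?_
  rw [S.ev_τ]
  exact List.mem_map.2 ⟨e.2, he, rfl⟩

theorem part_right {e : Strand V} (he : e.2 ∈ up e.1) : S.Part (S.τ e.2) e := by
  refine Or.inl ?_
  rw [S.ev_τ]
  exact List.mem_map.2 ⟨e.1, (S.hsymm _ _).1 he, rfl⟩

/-- The good drawing. -/
noncomputable def drawing : GoodDrawing fun v => up v ++ (dn v).reverse where
  pos := fun v => S.cen (S.τ v)
  arc := S.arc
  pos_inj := by
    intro v w h
    have := congrArg Complex.im h
    simp only [cen] at this
    apply S.τ_inj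
    have : (S.τ v : ℝ) = S.τ w := by linarith
    exact_mod_cast this
  cont := by
    intro u v h
    have : Continuous (S.arc u v) := by
      have h2 : Continuous (S.hgt u v) := by
        unfold hgt
        fun_prop
      exact (S.continuous_pt _).comp h2
    exact this.continuousOn
  inj := by
    intro u v h a ha b hb hab
    have := (S.pt_inj hab).1
    simp only [hgt] at this
    have hne : 2 * (S.τ v : ℝ) - 2 * S.τ u ≠ 0 := by
      have h3 : (S.τ u : ℝ) ≠ S.τ v := by
        rcases S.adj h with ⟨_, h2, _⟩ | ⟨_, h2, _⟩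
        · exact_mod_cast h2.ne
        · exact_mod_cast h2.ne'
      intro h4
      apply h3
      linarith
    have h5 : (2 * (S.τ v : ℝ) - 2 * S.τ u) * a = (2 * (S.τ v : ℝ) - 2 * S.τ u) * b := by linarith
    exact mul_left_cancel₀ hne h5
  src := by
    intro u v h
    have e0 : S.hgt u v 0 = 2 * (S.τ u : ℝ) + 1 := by simp [hgt]
    rw [arc, e0, S.pt_part (S.τ_lt u)]
    rcases S.adj h with ⟨h1, h2, h3⟩ | ⟨h1, h2, h3⟩
    · rw [h3]; exact S.part_left (e := (u, v)) h1
    · rw [h3]; exact S.part_right (e := (v, u)) h1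
  rev := by
    intro u v h t ht
    rw [arc, arc, S.str_symm h]
    congr 1
    simp only [hgt]
    ring
  avoid := by
    intro u v h t ht w hw
    have int := S.interior h ht
    have al := S.alive h (Ioo_subset_Icc_self ht)
    have him : S.hgt u v t = 2 * (S.τ w : ℝ) + 1 := congrArg Complex.im hw
    have hre : S.ab (S.str u v) (S.hgt u v t) = ((S.A (S.τ w)).length : ℝ) - 1 / 2 :=
      congrArg Complex.re hw
    rw [him] at int al hre
    have hat := (S.at_of_alive al).2
    have c : ((2 * S.τ w + 1 : ℕ) : ℝ) = 2 * (S.τ w : ℝ) + 1 := by push_cast; ring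
    rw [← c, S.ab_node (by have := S.τ_lt w; omega)] at hre
    have hp := S.eq_odd_one (S.τ_lt w) hat hre
    obtain ⟨p, hev⟩ := S.swap_of_interior (S.τ_lt w) hp int.1 int.2
    rw [S.ev_τ] at hev
    simp at hev
  once := by
    intro u v x y h1 h2 h p hp q hq
    obtain ⟨⟨a, ha, rfl⟩, ⟨b, hb, hab⟩⟩ := hp
    obtain ⟨⟨a', ha', rfl⟩, ⟨b', hb', hab'⟩⟩ := hq
    have hne := S.str_ne h1 h2 h
    obtain ⟨hh, hx⟩ := S.pt_inj hab.symm
    obtain ⟨hh', hx'⟩ := S.pt_inj hab'.symm
    have al1 := S.alive h1 ha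
    have al2 := S.alive h2 hb
    rw [← hh] at al2
    have al1' := S.alive h1 ha'
    have al2' := S.alive h2 hb'
    rw [← hh'] at al2'
    obtain ⟨t, ht, hr, p1, p2⟩ := S.meet hne al1 al2 hx
    obtain ⟨t', ht', hr', p1', p2'⟩ := S.meet hne al1' al2' hx'
    rcases lt_trichotomy t t' with h3 | h3 | h3
    · exact (S.twice hne al1.1 al2.1 h3 ht' p1 p2 p1' p2').elim
    · show S.pt _ (S.hgt u v a) = S.pt _ (S.hgt u v a')
      rw [hr, hr', h3]
    · exact (S.twice hne al1.1 al2.1 h3 ht p1' p2' p1 p2).elim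
  proper := by
    intro u v x y h1 h2 h a ha b hb hab
    exact S.proper h1 h2 h ha hb hab
  triple := by
    intro u v x y w z h1 h2 h3 n12 n23 n31 a ha b hb c hc hab hbc
    have ne12 := S.str_ne h1 h2 n12
    have ne23 := S.str_ne h2 h3 n23
    have ne31 := S.str_ne h3 h1 n31
    obtain ⟨hh, hx⟩ := S.pt_inj hab
    obtain ⟨hh', hx'⟩ := S.pt_inj hbc
    have al1 := S.alive h1 (Ioo_subset_Icc_self ha)
    have al2 := S.alive h2 (Ioo_subset_Icc_self hb)
    have al3 := S.alive h3 (Ioo_subset_Icc_self hc)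
    rw [← hh'] at al3
    obtain ⟨t', ht', hr', p2', p3⟩ := S.meet ne23 al2 al3 hx'
    rw [← hh] at al2
    obtain ⟨t, ht, hr, p1, p2⟩ := S.meet ne12 al1 al2 hx
    have htt : t = t' := by
      have : (2 * (t : ℝ) + 1) = 2 * t' + 1 := by rw [← hr, ← hr', hh]
      have : (t : ℝ) = t' := by linarith
      exact_mod_cast this
    subst htt
    have int := S.interior h1 ha
    rw [hr] at int
    obtain ⟨p, hev⟩ := S.swap_of_interior ht p1 int.1 int.2
    rw [S.part_inl hev] at p1 p2 p3
    rcases p1 with p1 | p1 <;> rcases p2 with p2 | p2 <;> rcases p3 with p3 | p3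
    · exact ne12 (p1.trans p2.symm)
    · exact ne12 (p1.trans p2.symm)
    · exact ne31 (p3.trans p1.symm)
    · exact ne23 (p2.trans p3.symm)
    · exact ne23 (p2.trans p3.symm)
    · exact ne31 (p3.trans p1.symm)
    · exact ne12 (p1.trans p2.symm)
    · exact ne12 (p1.trans p2.symm)
  rotation := S.rotation

end Sweep

theorem realizable_of_run {V : Type} (up dn : V → List V) (vs : List V)
    (X : List (Strand V × Strand V)) (hrun : Run up dn [] vs X []) (hall : ∀ v, v ∈ vs)
    (hnd : vs.Nodup) (hX : GoodX X) (hup : ∀ v, (up v).Nodup) (hdn : ∀ v, (dn v).Nodup)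
    (hsymm : ∀ v w, w ∈ up v ↔ v ∈ dn w) :
    Realizable fun v => up v ++ (dn v).reverse := by
  rcases isEmpty_or_nonempty V with hV | ⟨⟨v⟩⟩
  · exact ⟨{
      pos := fun v => hV.elim v
      arc := fun v => hV.elim v
      pos_inj := fun v => hV.elim v
      cont := fun v => hV.elim v
      inj := fun v => hV.elim v
      src := fun v => hV.elim v
      rev := fun v => hV.elim v
      avoid := fun v => hV.elim v
      once := fun v => hV.elim v
      proper := fun v => hV.elim v
      triple := fun v => hV.elim v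
      rotation := fun v => hV.elim v }⟩
  · haveI : Inhabited V := ⟨v⟩
    obtain ⟨T⟩ := hrun.trace
    obtain ⟨S⟩ := T.sweep hall hnd hX hup hdn hsymm
    exact ⟨S.drawing⟩

end Pool.MP_b347ba_lc
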