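import Pool.Agent.Lib.MP_b347ba_lc_h69.Dirs

/-! # Sweeps with their intermediate states -/

namespace Pool.MP_b347ba_lc

open Set

/-- Strands taking part in an event, before the event. -/
def evD {V : Type} (dn : V → List V) : (Strand V × Strand V) ⊕ V → List (Strand V)
  | .inl p => [p.1, p.2]
  | .inr v => (dn v).map fun w => (w, v)

/-- Strands taking part in an event, after the event. -/
def evU {V : Type} (up : V → List V) : (Strand V × Strand V) ⊕ V → List (Strand V)
  | .inl p => [p.2, p.1]
  | .inr v => (up v).map fun w => (v, w)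

structure Trace {V : Type} (up dn : V → List V) (L : List (Strand V)) (vs : List V)
    (X : List (Strand V × Strand V)) where
  N : ℕ
  st : ℕ → List (Strand V)
  ev : ℕ → (Strand V × Strand V) ⊕ V
  A : ℕ → List (Strand V)
  B : ℕ → List (Strand V)
  start : st 0 = L
  before : ∀ t < N, st t = A t ++ evD dn (ev t) ++ B t
  after : ∀ t < N, st (t + 1) = A t ++ evU up (ev t) ++ B t
  hvs : (List.range N).filterMap (fun t => (ev t).getRight?) = vs
  hX : (List.range N).filterMap (fun t => (ev t).getLeft?) = X

/-- Add an event at the beginning. -/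
def Trace.cons {V : Type} {up dn : V → List V} {L : List (Strand V)} {vs : List V}
    {X : List (Strand V × Strand V)} (T : Trace up dn L vs X) (A B : List (Strand V))
    (e : (Strand V × Strand V) ⊕ V) (h : L = A ++ evU up e ++ B) :
    Trace up dn (A ++ evD dn e ++ B) (e.getRight?.toList ++ vs) (e.getLeft?.toList ++ X) where
  N := T.N + 1
  st := fun t => Nat.casesOn t (A ++ evD dn e ++ B) T.st
  ev := fun t => Nat.casesOn t e T.ev
  A := fun t => Nat.casesOn t A T.A
  B := fun t => Nat.casesOn t B T.B
  start := rfl
  before := fun t ht => by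
    cases t with
    | zero => rfl
    | succ t => exact T.before t (by omega)
  after := fun t ht => by
    cases t with
    | zero => exact T.start.trans h
    | succ t => exact T.after t (by omega)
  hvs := by
    rw [List.range_succ_eq_map, List.filterMap_cons, List.filterMap_map]
    have := T.hvs
    cases he : e.getRight? with
    | none => simpa [he, Function.comp_def] using this
    | some v => simpa [he, Function.comp_def] using this
  hX := by
    rw [List.range_succ_eq_map, List.filterMap_cons, List.filterMap_map]
    have := T.hX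
    cases he : e.getLeft? with
    | none => simpa [he, Function.comp_def] using this
    | some v => simpa [he, Function.comp_def] using this

theorem Run.trace {V : Type} [Inhabited V] {up dn : V → List V} {L L' : List (Strand V)} {vs : List V}
    {X : List (Strand V × Strand V)} (h : Run up dn L vs X L') : Nonempty (Trace up dn L vs X) := by
  induction h with
  | nil L =>
    exact ⟨{
      N := 0
      st := fun _ => L
      ev := fun _ => .inr default
      A := fun _ => []
      B := fun _ => []
      start := rfl
      before := fun t ht => absurd ht (Nat.not_lt_zero t)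
      after := fun t ht => absurd ht (Nat.not_lt_zero t)
      hvs := rfl
      hX := rfl }⟩
  | swap A B a b vs X L' _ ih =>
    obtain ⟨T⟩ := ih
    exact ⟨by simpa [evD, evU] using T.cons A B (.inl (a, b)) (by simp [evU])⟩
  | vert A B v vs X L' _ ih =>
    obtain ⟨T⟩ := ih
    exact ⟨by simpa [evD, evU] using T.cons A B (.inr v) (by simp [evU])⟩

/-- All the data of a sweep. -/
structure Sweep {V : Type} (up dn : V → List V) where
  N : ℕ
  st : ℕ → List (Strand V)
  ev : ℕ → (Strand V × Strand V) ⊕ V
  A : ℕ → List (Strand V)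
  B : ℕ → List (Strand V)
  τ : V → ℕ
  start : st 0 = []
  before : ∀ t < N, st t = A t ++ evD dn (ev t) ++ B t
  after : ∀ t < N, st (t + 1) = A t ++ evU up (ev t) ++ B t
  τ_lt : ∀ v, τ v < N
  ev_τ : ∀ v, ev (τ v) = .inr v
  τ_eq : ∀ t < N, ∀ v, ev t = .inr v → τ v = t
  indep : ∀ t < N, ∀ a b, ev t = .inl (a, b) → a.1 ≠ b.1 ∧ a.1 ≠ b.2 ∧ a.2 ≠ b.1 ∧ a.2 ≠ b.2
  once : ∀ t t', t < t' → t' < N → ∀ a b c d, ev t = .inl (a, b) → ev t' = .inl (c, d) →
    (c, d) ≠ (a, b) ∧ (c, d) ≠ (b, a)
  hup : ∀ v, (up v).Nodup
  hdn : ∀ v, (dn v).Nodup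
  hsymm : ∀ v w, w ∈ up v ↔ v ∈ dn w

theorem Trace.sweep {V : Type} {up dn : V → List V} {vs : List V}
    {X : List (Strand V × Strand V)} (T : Trace up dn [] vs X) (hall : ∀ v, v ∈ vs)
    (hnd : vs.Nodup) (hX : GoodX X) (hup : ∀ v, (up v).Nodup) (hdn : ∀ v, (dn v).Nodup)
    (hsymm : ∀ v w, w ∈ up v ↔ v ∈ dn w) : Nonempty (Sweep up dn) := by
  have h1 : ∀ v, ∃ t, t < T.N ∧ T.ev t = .inr v := by
    intro v
    have := hall v
    rw [← T.hvs, List.mem_filterMap] at this
    obtain ⟨t, ht, h⟩ := this
    refine ⟨t, List.mem_range.1 ht, ?_⟩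
    cases he : T.ev t with
    | inl p => rw [he] at h; simp at h
    | inr w => rw [he] at h; simp at h; rw [h]
  have h2 : ∀ t t', t < t' → t' < T.N → ∀ v, T.ev t = .inr v → T.ev t' = .inr v → False := by
    intro t t' htt ht' v e e'
    have := hnd
    rw [← T.hvs, List.Nodup, List.pairwise_filterMap, List.pairwise_iff_getElem] at this
    have := this t t' (by simp; omega) (by simpa using ht') htt v (by simp [e]) v (by simp [e'])
    exact this rfl
  have h3 : ∀ t t', t < t' → t' < T.N → ∀ p p', T.ev t = .inl p → T.ev t' = .inl p' →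
      p' ≠ p ∧ p' ≠ p.swap := by
    intro t t' htt ht' p p' e e'
    have := hX.once
    rw [← T.hX, List.pairwise_filterMap, List.pairwise_iff_getElem] at this
    exact this t t' (by simp; omega) (by simpa using ht') htt p (by simp [e]) p' (by simp [e'])
  choose τ hτ1 hτ2 using h1
  exact ⟨{
    N := T.N
    st := T.st
    ev := T.ev
    A := T.A
    B := T.B
    τ := τ
    start := T.start
    before := T.before
    after := T.after
    τ_lt := hτ1
    ev_τ := hτ2
    τ_eq := by
      intro t ht v e
      rcases lt_trichotomy (τ v) t with h | h | h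
      · exact (h2 _ _ h ht v (hτ2 v) e).elim
      · exact h
      · exact (h2 _ _ h (hτ1 v) v e (hτ2 v)).elim
    indep := by
      intro t ht a b e
      have : (a, b) ∈ X := by
        rw [← T.hX, List.mem_filterMap]
        exact ⟨t, List.mem_range.2 ht, by simp [e]⟩
      exact hX.indep _ this
    once := by
      intro t t' htt ht' a b c d e e'
      exact h3 t t' htt ht' _ _ e e'
    hup := hup
    hdn := hdn
    hsymm := hsymm }⟩

end Pool.MP_b347ba_lc
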